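import Pool.Agent.Helper83.CO.St
import Pool.Agent.Helper53.CX.M_Sum

/-!
# Project CO, module TRM: every Laurent polynomial has terms
-/

set_option autoImplicit false

namespace Pool.Agent.Helper38.CO

open Pool.Agent.Helper53.CX Pool.Agent.Helper83.CO MvPolynomial
open scoped BigOperators

theorem sum_rootMult_le (c : Polynomial ℂ) (Q : Finset ℂ) :
    ∑ p ∈ Q, c.rootMultiplicity p ≤ c.natDegree := by
  classical
  have h1 : ∑ p ∈ Q, c.rootMultiplicity p ≤ ∑ p ∈ Q ∪ c.roots.toFinset, c.rootMultiplicity p :=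
    Finset.sum_le_sum_of_subset Finset.subset_union_left
  have h2 : ∑ p ∈ Q ∪ c.roots.toFinset, c.rootMultiplicity p = Multiset.card c.roots := by
    rw [← Multiset.sum_count_eq_card (s := Q ∪ c.roots.toFinset) (m := c.roots)
      (fun a ha => Finset.mem_union_right _ (Multiset.mem_toFinset.2 ha))]
    exact Finset.sum_congr rfl fun p _ => (Polynomial.count_roots c).symm
  exact h1.trans (h2.le.trans (Polynomial.card_roots' c))

theorem sum_crit (P : Finset ℂ) (hP : (0 : ℂ) ∉ P) (F : Option ℂ → ℤ) :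
    ∑ s ∈ crit P, F s = F none + (F (some 0) + ∑ p ∈ P, F (some p)) := by
  classical
  unfold crit
  rw [Finset.sum_insert, Finset.sum_insert, Finset.sum_image]
  · intro a _ b _ h
    exact Option.some_injective _ h
  · intro h
    rw [Finset.mem_image] at h
    obtain ⟨p, hp, hp0⟩ := h
    rw [Option.some_injective _ hp0] at hp
    exact hP hp
  · intro h
    rw [Finset.mem_insert, Finset.mem_image] at h
    rcases h with h | ⟨p, -, h⟩ <;> exact absurd h (by simp)

theorem sum_zs_le (P : Finset ℂ) (hP : (0 : ℂ) ∉ P) (c : Polynomial ℂ) :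
    ∑ s ∈ crit P, zs s c ≤ 0 := by
  classical
  rw [sum_crit P hP]
  have h := sum_rootMult_le c (insert 0 P)
  rw [Finset.sum_insert hP] at h
  have h' : ((c.rootMultiplicity 0 : ℕ) : ℤ) + ∑ p ∈ P, ((c.rootMultiplicity p : ℕ) : ℤ)
      ≤ (c.natDegree : ℤ) := by exact_mod_cast h
  change -(c.natDegree : ℤ) + (((c.rootMultiplicity 0 : ℕ) : ℤ)
    + ∑ p ∈ P, ((c.rootMultiplicity p : ℕ) : ℤ)) ≤ 0
  linarith

theorem hTRM (hPHI : StPHI) (hUNI : StUNI) : StTRM := by
  classical
  intro k P f hP hL hf0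
  obtain ⟨g, u, hf⟩ := hL
  obtain ⟨-, -, hU3, -, -, hU6, hU7, hU8⟩ := hUNI k
  have hg : g ≠ 0 := by
    rintro rfl
    apply hf0
    rw [hf, map_zero, zero_mul]
  have heps : ∑ s ∈ crit P, eps s = 0 := by
    rw [sum_crit P hP, hU6, hU7]
    have : ∑ p ∈ P, eps (some p) = 0 := by
      apply Finset.sum_eq_zero
      intro p hp
      exact hU8 p (by rintro rfl; exact hP hp)
    rw [this]
    norm_num
  have hord : ∀ (s : Option ℂ) (a : Fin (k + 1) → ℤ) (v : DivVal (Kn (k + 1))), IsVal v s a →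
      v.ord f = v.ord (algebraMap (Pn (k + 1)) (Kn (k + 1)) g)
        + (u 0 * (a 0 * eps s) + ∑ j : Fin k, u j.succ * a j.succ) := by
    intro s a v hv
    rw [hf, v.ord_mul _ _ (Sum_alg_ne g hg) (Sum_xm_ne u), Sum_ord_xm, Fin.sum_univ_succ,
      (hU3 s a v hv).1]
    congr 2
    exact Finset.sum_congr rfl fun j _ => by rw [(hU3 s a v hv).2 j]
  have hpr : ∀ (s : Option ℂ) (a : Fin (k + 1) → ℤ) (z : ℤ) (m : Fin k → ℤ),
      pr a (z + u 0 * eps s) (fun j => m j + u j.succ)
        = pr a z m + (u 0 * (a 0 * eps s) + ∑ j : Fin k, u j.succ * a j.succ) := by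
    intro s a z m
    unfold pr
    have : ∑ j : Fin k, a j.succ * (m j + u j.succ)
        = ∑ j : Fin k, a j.succ * m j + ∑ j : Fin k, u j.succ * a j.succ := by
      rw [← Finset.sum_add_distrib]
      exact Finset.sum_congr rfl fun j _ => by ring
    rw [this]
    ring
  refine ⟨(Phi k g).support.image fun m =>
    ((fun s => zs s ((Phi k g).coeff m) + u 0 * eps s), fun j => (m j : ℤ) + u j.succ), ?_, ?_⟩
  · intro t ht
    rw [Finset.mem_image] at ht
    obtain ⟨m, -, rfl⟩ := ht
    change ∑ s ∈ crit P, (zs s ((Phi k g).coeff m) + u 0 * eps s) ≤ 0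
    rw [Finset.sum_add_distrib, ← Finset.mul_sum, heps, mul_zero, add_zero]
    exact sum_zs_le P hP _
  · intro s a v ha hv
    obtain ⟨h1, m, hm, h2⟩ := hv g hg
    constructor
    · intro t ht
      rw [Finset.mem_image] at ht
      obtain ⟨m', hm', rfl⟩ := ht
      rw [hord s a v hv]
      change _ ≤ pr a (zs s ((Phi k g).coeff m') + u 0 * eps s) (fun j => (m' j : ℤ) + u j.succ)
      rw [hpr s a]
      have := h1 m' hm'
      linarith
    · refine ⟨_, Finset.mem_image_of_mem _ hm, ?_⟩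
      rw [hord s a v hv]
      change _ = pr a (zs s ((Phi k g).coeff m) + u 0 * eps s) (fun j => (m j : ℤ) + u j.succ)
      rw [hpr s a, h2]

end Pool.Agent.Helper38.CO
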